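import Pool.Agent.Q78.BN.Loci

/-!
# Containments of Brill-Noether loci outside the secant range
-/

namespace Pool.Agent.Results.MP_eed2ef_ag.SmallDegree

open Pool.Agent.Helper395.CS hiding genus map_mul map_inv
open Pool.Agent.Helper395.BC Pool.Agent.Q78.BN

/-- `𝓜^r_{g,d}` is a Brill-Noether locus in the sense of the question. -/
def IsLocus (g : ℕ) (r d : ℤ) : Prop := 1 ≤ r ∧ rho g r d < 0 ∧ LocusNonempty g r d

/-- **Disproof.** For all `s ≥ 2`, `r ≥ 2s - 1`, `d ≥ 2r` and all `g` with `(d-1)(d-2) < 2g` the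
Brill-Noether locus `𝓜^r_{g,d}` is contained in the Brill-Noether locus `𝓜^s_{g,e}` with
`e = d - 2r + 2s`, although `e < d - 2r + 2 + s + ⌊(r-1)/2⌋`; so the non-containment fails for every
`g ≥ 11`. -/
theorem result :
    (∀ (g : ℕ) (r s d : ℤ), 2 ≤ s → 2 * s - 1 ≤ r → 2 * r ≤ d → (d - 1) * (d - 2) < 2 * g →
      s + 1 ≤ r ∧ d ≤ g - 1 ∧ d - 2 * r + 2 * s ≤ g - 1 ∧ IsLocus g r d ∧
      IsLocus g s (d - 2 * r + 2 * s) ∧
      d - 2 * r + 2 * s < d - 2 * r + 2 + s + (r - 1) / 2 ∧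
      LocusSubset g r d s (d - 2 * r + 2 * s)) ∧
    ¬ ∃ g₀ : ℕ, ∀ g : ℕ, g₀ ≤ g → ∀ r s d e : ℤ, d ≤ g - 1 → e ≤ g - 1 → s + 1 ≤ r →
      3 ≤ s + 1 → IsLocus g r d → IsLocus g s e →
      e < d - 2 * r + 2 + s + (r - 1) / 2 → ¬ LocusSubset g r d s e := by
  have key : ∀ (g : ℕ) (r s d : ℤ), 2 ≤ s → 2 * s - 1 ≤ r → 2 * r ≤ d →
      (d - 1) * (d - 2) < 2 * g →
      s + 1 ≤ r ∧ d ≤ g - 1 ∧ d - 2 * r + 2 * s ≤ g - 1 ∧ IsLocus g r d ∧
      IsLocus g s (d - 2 * r + 2 * s) ∧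
      d - 2 * r + 2 * s < d - 2 * r + 2 + s + (r - 1) / 2 ∧
      LocusSubset g r d s (d - 2 * r + 2 * s) := by
    intro g r s d hs hr hd hdg
    have h1 := lt_g (by linarith) hdg
    have hg : 7 ≤ g := by
      by_contra h
      have : (g : ℤ) < 7 := by omega
      linarith
    refine ⟨by linarith, by linarith, by linarith,
      ⟨by linarith, rho_neg (by linarith) (by linarith) h1,
        locusNonempty hg (by linarith) hd⟩,
      ⟨by linarith, rho_neg (by linarith) (by linarith) (by linarith),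
        locusNonempty hg (by linarith) (by linarith)⟩, by omega, ?_⟩
    exact locusSubset (g := g) (r := r) (s := s) (d := d) (by omega) (by linarith) hdg
      (by linarith) (by linarith)
  refine ⟨key, ?_⟩
  rintro ⟨g₀, h⟩
  obtain ⟨h1, h2, h3, h4, h5, h6, h7⟩ := key (g₀ + 11) 3 2 6 le_rfl (by norm_num) (by norm_num)
    (by push_cast; linarith)
  exact h (g₀ + 11) (by omega) 3 2 6 _ h2 h3 h1 (by norm_num) h4 h5 h6 h7

end Pool.Agent.Results.MP_eed2ef_ag.SmallDegree
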